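import Pool.Agent.Q211.Race.Final

set_option autoImplicit false
open MeasureTheory ProbabilityTheory Finset Filter Topology
open scoped ENNReal

namespace Pool.Agent.Results.MP_8d137a_pr.Cycle

open Pool.Agent.Q211.Race

/-- first letter of a word on the curve -/
noncomputable def la (h : ℝ) : ℝ := pA h / qA h

/-- second letter of a word on the curve -/
noncomputable def lb (h : ℝ) : ℝ := qA h ^ 2 / pA h

/-- the letter probabilities -/
noncomputable def vec (h : ℝ) : Fin 7 → ℝ :=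
  ![la h, lb h, 1 / 7, 1 / 7, la (-h), lb (-h),
    1 - (la h + lb h + 1 / 7 + 1 / 7 + la (-h) + lb (-h))]

theorem pA_cont : Continuous pA := by unfold pA; fun_prop

theorem qA_cont : Continuous qA := by unfold qA; fun_prop

theorem pA_zero : pA 0 = 1 / 343 := by unfold pA; norm_num

theorem qA_zero : qA 0 = 1 / 49 := by unfold qA; norm_num

theorem la_tend : Tendsto la (𝓝 0) (𝓝 (1 / 7)) := by
  have h1 : Tendsto pA (𝓝 0) (𝓝 (1 / 343)) := by
    have := pA_cont.tendsto 0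
    rwa [pA_zero] at this
  have h2 : Tendsto qA (𝓝 0) (𝓝 (1 / 49)) := by
    have := qA_cont.tendsto 0
    rwa [qA_zero] at this
  have := h1.div h2 (by norm_num)
  rw [show (1 / 343 : ℝ) / (1 / 49) = 1 / 7 by norm_num] at this
  exact this

theorem lb_tend : Tendsto lb (𝓝 0) (𝓝 (1 / 7)) := by
  have h1 : Tendsto pA (𝓝 0) (𝓝 (1 / 343)) := by
    have := pA_cont.tendsto 0
    rwa [pA_zero] at this
  have h2 : Tendsto qA (𝓝 0) (𝓝 (1 / 49)) := by
    have := qA_cont.tendsto 0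
    rwa [qA_zero] at this
  have := (h2.pow 2).div h1 (by norm_num)
  rw [show (1 / 49 : ℝ) ^ 2 / (1 / 343) = 1 / 7 by norm_num] at this
  exact this

theorem neg_tend : Tendsto (fun h : ℝ => -h) (𝓝 0) (𝓝 0) := by
  have := (continuous_neg (G := ℝ)).tendsto 0
  simpa using this

theorem vec_tend (i : Fin 7) : Tendsto (fun h => vec h i) (𝓝 0) (𝓝 (1 / 7)) := by
  have a1 := la_tend
  have b1 := lb_tend
  have a2 : Tendsto (fun h => la (-h)) (𝓝 0) (𝓝 (1 / 7)) := a1.comp neg_tend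
  have b2 : Tendsto (fun h => lb (-h)) (𝓝 0) (𝓝 (1 / 7)) := b1.comp neg_tend
  have c : Tendsto (fun _ : ℝ => (1 / 7 : ℝ)) (𝓝 0) (𝓝 (1 / 7)) := tendsto_const_nhds
  fin_cases i
  · exact a1
  · exact b1
  · exact c
  · exact c
  · exact a2
  · exact b2
  · have := (tendsto_const_nhds (x := (1 : ℝ)) (f := 𝓝 (0 : ℝ))).sub
      (((((a1.add b1).add c).add c).add a2).add b2)
    norm_num at this
    simpa [vec] using this

theorem vec_sum (h : ℝ) : ∑ i, vec h i = 1 := by
  unfold vec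
  rw [Fin.sum_univ_seven]
  simp

/-- continuity of a function of the two words -/
theorem ev_pos (F : ℝ → ℝ → ℝ → ℝ → ℝ) (hF : Continuous (fun x : ℝ × ℝ × ℝ × ℝ =>
    F x.1 x.2.1 x.2.2.1 x.2.2.2)) (h0 : 0 < F (1 / 343) (1 / 49) (1 / 343) (1 / 49))
    (f1 f2 f3 f4 : ℝ → ℝ) (t1 : Tendsto f1 (𝓝 0) (𝓝 (1 / 343)))
    (t2 : Tendsto f2 (𝓝 0) (𝓝 (1 / 49))) (t3 : Tendsto f3 (𝓝 0) (𝓝 (1 / 343)))
    (t4 : Tendsto f4 (𝓝 0) (𝓝 (1 / 49))) :
    ∀ᶠ h in 𝓝 (0 : ℝ), 0 < F (f1 h) (f2 h) (f3 h) (f4 h) := by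
  have h1 : Tendsto (fun h => (f1 h, f2 h, f3 h, f4 h)) (𝓝 0)
      (𝓝 (1 / 343, 1 / 49, 1 / 343, 1 / 49)) :=
    t1.prodMk_nhds (t2.prodMk_nhds (t3.prodMk_nhds t4))
  have h2 := (hF.tendsto (1 / 343, 1 / 49, 1 / 343, 1 / 49)).comp h1
  exact h2.eventually_const_lt h0

theorem result : ¬ Q1 := by
  intro hQ
  obtain ⟨ε, hε, hQ⟩ := hQ 7 3 (by norm_num) (by norm_num)
  have tp : Tendsto pA (𝓝 0) (𝓝 (1 / 343)) := by
    have := pA_cont.tendsto 0
    rwa [pA_zero] at this
  have tq : Tendsto qA (𝓝 0) (𝓝 (1 / 49)) := by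
    have := qA_cont.tendsto 0
    rwa [qA_zero] at this
  have tp' : Tendsto (fun h => pA (-h)) (𝓝 0) (𝓝 (1 / 343)) := tp.comp neg_tend
  have tq' : Tendsto (fun h => qA (-h)) (𝓝 0) (𝓝 (1 / 49)) := tq.comp neg_tend
  have tc1 : Tendsto (fun _ : ℝ => (1 / 343 : ℝ)) (𝓝 0) (𝓝 (1 / 343)) := tendsto_const_nhds
  have tc2 : Tendsto (fun _ : ℝ => (1 / 49 : ℝ)) (𝓝 0) (𝓝 (1 / 49)) := tendsto_const_nhds
  have cD : Continuous (fun x : ℝ × ℝ × ℝ × ℝ => Dl x.1 x.2.1 x.2.2.1 x.2.2.2) := by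
    unfold Dl
    fun_prop
  have cU : Continuous (fun x : ℝ × ℝ × ℝ × ℝ => DU x.1 x.2.1 x.2.2.1 x.2.2.2) := by
    unfold DU
    fun_prop
  have pD : 0 < Dl (1 / 343) (1 / 49) (1 / 343) (1 / 49) := by
    unfold Dl
    norm_num
  have pU : 0 < DU (1 / 343) (1 / 49) (1 / 343) (1 / 49) := by
    unfold DU
    norm_num
  have cG1 : Continuous G1 := by unfold G1; fun_prop
  have cG3 : Continuous G3 := by unfold G3; fun_prop
  have pG1 : 0 < G1 0 := by unfold G1; norm_num
  have pG3 : 0 < G3 0 := by unfold G3; norm_num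
  have hvec : ∀ᶠ h in 𝓝 (0 : ℝ), ∀ i, |vec h i - 1 / 7| < min ε (1 / 14) := by
    rw [eventually_all]
    intro i
    have := (vec_tend i).sub_const (1 / 7)
    rw [sub_self] at this
    have h2 := this.abs
    rw [abs_zero] at h2
    exact h2.eventually_lt_const (by positivity)
  have hall := hvec.and ((ev_pos Dl cD pD _ _ _ _ tp tq tc1 tc2).and
    ((ev_pos Dl cD pD _ _ _ _ tc1 tc2 tp' tq').and
    ((ev_pos Dl cD pD _ _ _ _ tp' tq' tp tq).and
    ((ev_pos DU cU pU _ _ _ _ tp tq tc1 tc2).and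
    ((ev_pos DU cU pU _ _ _ _ tc1 tc2 tp' tq').and
    ((ev_pos DU cU pU _ _ _ _ tp' tq' tp tq).and
    (((cG1.tendsto 0).eventually_const_lt pG1).and
    ((((cG1.tendsto 0).comp neg_tend).eventually_const_lt pG1).and
    (((cG3.tendsto 0).eventually_const_lt pG3).and
    ((tp.eventually_const_lt (show (0 : ℝ) < 1 / 343 by norm_num)).and
    ((tq.eventually_const_lt (show (0 : ℝ) < 1 / 49 by norm_num)).and
    ((tp'.eventually_const_lt (show (0 : ℝ) < 1 / 343 by norm_num)).and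
    (tq'.eventually_const_lt (show (0 : ℝ) < 1 / 49 by norm_num))))))))))))))
  have hall2 := (hall.filter_mono (nhdsWithin_le_nhds (s := Set.Ioi (0 : ℝ)))).and
    self_mem_nhdsWithin
  obtain ⟨h, ⟨hv, d1, d2, d3, u1, u2, u3, g1, g1', g3, hp, hq, hp', hq'⟩, hh⟩ := hall2.exists
  have hh0 : 0 < h := hh
  have hpos : ∀ i, 0 < vec h i := by
    intro i
    have := lt_of_lt_of_le (hv i) (min_le_right _ _)
    rw [abs_lt] at this
    linarith [this.1]
  set p : PMF (Fin 7) := PMF.ofFintype (fun i => ENNReal.ofReal (vec h i)) (by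
    rw [← ENNReal.ofReal_sum_of_nonneg fun i _ => (hpos i).le, vec_sum, ENNReal.ofReal_one])
    with hpdef
  have hpv : ∀ i, (p i).toReal = vec h i := by
    intro i
    rw [hpdef, PMF.ofFintype_apply, ENNReal.toReal_ofReal (hpos i).le]
  have hppos : ∀ i, 0 < (p i).toReal := fun i => by rw [hpv]; exact hpos i
  refine hQ p (fun i => ?_) ⟨wd 0 1, wd 2 3, wd 4 5, ?_, ?_, ?_⟩
  · rw [hpv]
    have := lt_of_lt_of_le (hv i) (min_le_left _ _)
    simpa using this
  · refine arc_of p 0 1 2 3 (by decide) (by decide) (hppos _) (hppos _) (hppos _) (hppos _)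
      (pA h) (qA h) (1 / 343) (1 / 49) ?_ ?_ ?_ ?_ d1.ne' u1 ?_
    · rw [hpv, hpv]
      simp only [vec, la, lb]
      simp
      field_simp
    · rw [hpv, hpv]
      simp only [vec, la, lb]
      simp
      field_simp
    · rw [hpv, hpv]
      simp [vec]
      norm_num
    · rw [hpv, hpv]
      simp [vec]
      norm_num
    · rw [f1]
      positivity
  · refine arc_of p 2 3 4 5 (by decide) (by decide) (hppos _) (hppos _) (hppos _) (hppos _)
      (1 / 343) (1 / 49) (pA (-h)) (qA (-h)) ?_ ?_ ?_ ?_ d2.ne' u2 ?_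
    · rw [hpv, hpv]
      simp [vec]
      norm_num
    · rw [hpv, hpv]
      simp [vec]
      norm_num
    · rw [hpv, hpv]
      simp only [vec, la, lb]
      simp
      field_simp
    · rw [hpv, hpv]
      simp only [vec, la, lb]
      simp
      field_simp
    · rw [Np_anti, f1]
      have : 0 < h ^ 3 * G1 (-h) := mul_pos (by positivity) g1'
      nlinarith
  · refine arc_of p 4 5 0 1 (by decide) (by decide) (hppos _) (hppos _) (hppos _) (hppos _)
      (pA (-h)) (qA (-h)) (pA h) (qA h) ?_ ?_ ?_ ?_ d3.ne' u3 ?_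
    · rw [hpv, hpv]
      simp only [vec, la, lb]
      simp
      field_simp
    · rw [hpv, hpv]
      simp only [vec, la, lb]
      simp
      field_simp
    · rw [hpv, hpv]
      simp only [vec, la, lb]
      simp
      field_simp
    · rw [hpv, hpv]
      simp only [vec, la, lb]
      simp
      field_simp
    · rw [f3]
      positivity

end Pool.Agent.Results.MP_8d137a_pr.Cycle
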